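import Pool.Agent.Helper86.AN.Stmts

set_option autoImplicit false

/-!
FIN: the final theorem on cubic graphs with a 2-factor.
-/

namespace Pool.Agent.Helper78.AN

open Pool.Agent.Helper86.AN Finset

theorem fin_supp {V : Type} [Fintype V] [DecidableEq V] (F : SimpleGraph V) (s : Equiv.Perm V)
    (hsc : ∀ v w, s.SameCycle v w ↔ F.Reachable v w) (v : V) :
    (orb s v).card = (F.connectedComponentMk v).supp.ncard := by
  classical
  have h : ((orb s v : Finset V) : Set V) = (F.connectedComponentMk v).supp := by
    ext w
    simp only [orb, coe_filter, mem_univ, true_and, SimpleGraph.ConnectedComponent.mem_supp_iff,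
      SimpleGraph.ConnectedComponent.eq]
    constructor
    · intro h
      exact ((hsc _ _).1 h).symm
    · intro h
      exact (hsc _ _).2 h.symm
  rw [← h, Set.ncard_coe_finset]

/-- the number of vertices in components with `l` vertices -/
theorem fin_cnt {V : Type} [Fintype V] [DecidableEq V] (F : SimpleGraph V) (s : Equiv.Perm V)
    (hsc : ∀ v w, s.SameCycle v w ↔ F.Reachable v w) (l : ℕ) :
    ((univ : Finset V).filter (fun v => (orb s v).card = l)).card =
      l * Nat.card {K : F.ConnectedComponent // K.supp.ncard = l} := by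
  classical
  have : Fintype F.ConnectedComponent := Fintype.ofFinite _
  rw [card_eq_sum_card_fiberwise (f := F.connectedComponentMk)
    (t := univ.filter (fun K : F.ConnectedComponent => K.supp.ncard = l))]
  · have h1 : ∀ K ∈ univ.filter (fun K : F.ConnectedComponent => K.supp.ncard = l),
        (((univ : Finset V).filter (fun v => (orb s v).card = l)).filter
          (fun v => F.connectedComponentMk v = K)).card = l := by
      intro K hK
      have hK' : K.supp.ncard = l := (mem_filter.1 hK).2
      have h2 : ((((univ : Finset V).filter (fun v => (orb s v).card = l)).filter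
          (fun v => F.connectedComponentMk v = K) : Finset V) : Set V) = K.supp := by
        ext v
        simp only [coe_filter, mem_filter, mem_univ, true_and,
          SimpleGraph.ConnectedComponent.mem_supp_iff]
        constructor
        · exact fun h => h.2
        · intro h
          refine ⟨?_, h⟩
          rw [fin_supp F s hsc, h]
          exact hK'
      rw [← Set.ncard_coe_finset]
      rw [h2]
      exact hK'
    rw [sum_congr rfl h1, sum_const, smul_eq_mul, mul_comm]
    congr 1
    rw [Nat.card_eq_fintype_card, Fintype.card_subtype]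
  · intro v hv
    have hv' := (mem_filter.1 (mem_coe.1 hv)).2
    rw [mem_coe, mem_filter]
    refine ⟨mem_univ _, ?_⟩
    rw [← fin_supp F s hsc]
    exact hv'

/-- the matching -/
theorem fin_match {V : Type} [Fintype V] [DecidableEq V] (G F : SimpleGraph V)
    [DecidableRel G.Adj] [DecidableRel F.Adj] (hG : G.IsRegularOfDegree 3)
    (hF : F.IsRegularOfDegree 2) (hFG : F ≤ G) :
    ∃ m : V → V, ∀ v w, (G.Adj v w ∧ ¬ F.Adj v w) ↔ w = m v := by
  have h1 : ∀ v, ∃ w, G.neighborFinset v \ F.neighborFinset v = {w} := by
    intro v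
    rw [← card_eq_one, card_sdiff_of_subset]
    · rw [SimpleGraph.card_neighborFinset_eq_degree, SimpleGraph.card_neighborFinset_eq_degree,
        hG v, hF v]
    · intro w hw
      rw [SimpleGraph.mem_neighborFinset] at hw ⊢
      exact hFG hw
  choose m hm using h1
  refine ⟨m, fun v w => ?_⟩
  have h2 : w ∈ G.neighborFinset v \ F.neighborFinset v ↔ w ∈ ({m v} : Finset V) := by rw [hm v]
  rw [mem_sdiff, SimpleGraph.mem_neighborFinset, SimpleGraph.mem_neighborFinset,
    mem_singleton] at h2
  exact h2

theorem st_FIN (hMAIN : ST_MAIN) (hORI : ST_ORI) (hISO : ST_ISO) : ST_FIN := by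
  intro V _ _ G F _ _ hG hF hFG hl
  obtain ⟨s, hs, hsc, hs3⟩ := hORI V F hF
  obtain ⟨m, hm⟩ := fin_match G F hG hF hFG
  have hadj : ∀ v w, G.Adj v w ↔ (s v = w ∨ s w = v ∨ m v = w) := by
    intro v w
    constructor
    · intro h
      by_cases hf : F.Adj v w
      · rcases (hs v w).1 hf with h1 | h1
        · exact Or.inl h1
        · exact Or.inr (Or.inl h1)
      · exact Or.inr (Or.inr ((hm v w).1 ⟨h, hf⟩).symm)
    · rintro (h | h | h)
      · exact hFG ((hs v w).2 (Or.inl h))
      · exact hFG ((hs v w).2 (Or.inr h))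
      · exact ((hm v w).2 h.symm).1
  have hinv : InvOn (univ : Finset V) m := by
    intro v _
    have h1 := (hm v (m v)).2 rfl
    refine ⟨mem_univ _, ?_, h1.1.ne'⟩
    exact ((hm (m v) v).1 ⟨h1.1.symm, fun h => h1.2 h.symm⟩).symm
  have hLam : (Lam s (univ : Finset V)).card ≤ 3 := by
    refine le_trans ?_ hl
    rw [← Set.ncard_coe_finset]
    refine Set.ncard_le_ncard ?_ ?_
    · intro l hl'
      have h1 := (mem_filter.1 (mem_coe.1 hl')).2
      obtain ⟨h5, ho, hc⟩ := h1
      refine ⟨h5, ho, ?_⟩
      rw [fin_cnt F s hsc, Nat.odd_mul] at hc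
      exact hc.2
    · refine (Set.finite_Iic (Fintype.card V)).subset ?_
      rintro l ⟨-, -, hc⟩
      have hpos : 0 < Nat.card {K : F.ConnectedComponent // K.supp.ncard = l} := hc.pos
      obtain ⟨⟨K, hK⟩⟩ := (Nat.card_pos_iff.1 hpos).1
      rw [Set.mem_Iic, ← hK, ← Nat.card_eq_fintype_card, ← Set.ncard_univ]
      exact Set.ncard_le_ncard (Set.subset_univ _) Set.finite_univ
  obtain ⟨c, hb, hbal⟩ := hMAIN V s univ m (fun v => by simp) (fun v _ => hs3 v) hinv hLam
  exact hISO V G s m c hadj hb hbal

end Pool.Agent.Helper78.AN
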