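import Pool.Agent.Helper86.AN.Stmts

set_option autoImplicit false

/-!
REDF: reduction principle with a free matching edge.
-/

namespace Pool.Agent.Helper78.AN

open Pool.Agent.Helper86.AN Finset

/-- balanced colourings depend only on the colours on the set -/
theorem redf_congr {V : Type} (s : Equiv.Perm V) (A : Finset V) (c c' : V → Bool)
    (h : BalOn s A c) (hc : ∀ v ∈ A, c' v = c v) : BalOn s A c' := by
  obtain ⟨φ, hφ⟩ := h
  refine ⟨φ, fun v hv => ?_⟩
  obtain ⟨h1, h2, h3, h4⟩ := hφ v hv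
  refine ⟨h1, h2, ?_, fun w hw hcw => ?_⟩
  · rw [hc _ h1, hc _ hv]
    exact h3
  · rw [hc _ hv, hc _ hw] at hcw
    exact h4 w hw hcw

theorem st_REDF (hCON : ST_CON) (hUNI : ST_UNI) : ST_REDF := by
  intro V _ _ s A S m w u hSA hA hS hm hu hmu hw hcol hgood
  have huA := hSA hu
  have hmuA := hSA hmu
  have hm0 : InvOn ((A.erase u).erase (m u)) m := by
    intro v hv
    rw [mem_erase, mem_erase] at hv
    obtain ⟨h1, h2, h3⟩ := hv
    obtain ⟨h4, h5, h6⟩ := hm v h3
    refine ⟨?_, h5, h6⟩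
    rw [mem_erase, mem_erase]
    refine ⟨fun h => h2 ?_, fun h => h1 ?_, h4⟩
    · rw [← h5, h, (hm u huA).2.1]
    · rw [← h5, h]
  have hsub : (S.erase u).erase (m u) ⊆ (A.erase u).erase (m u) := by
    intro v hv
    rw [mem_erase, mem_erase] at hv ⊢
    exact ⟨hv.1, hv.2.1, hSA hv.2.2⟩
  have hdiff : ((A.erase u).erase (m u)) \ ((S.erase u).erase (m u)) = A \ S := by
    ext v
    simp only [mem_sdiff, mem_erase]
    constructor
    · rintro ⟨⟨h1, h2, h3⟩, h4⟩
      exact ⟨h3, fun h => h4 ⟨h1, h2, h⟩⟩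
    · rintro ⟨h1, h2⟩
      exact ⟨⟨fun h => h2 (h ▸ hmu), fun h => h2 (h ▸ hu), h1⟩, fun h => h2 h.2.2⟩
  obtain ⟨m', hm', hc'⟩ := hCON V _ _ m w hsub hm0 hw
  rw [hdiff] at hm' hc'
  obtain ⟨c, hcb, hcbal⟩ := hgood m' hm'
  obtain ⟨c1, h11, h12, h13⟩ := hc' c hcb
  obtain ⟨c2, h21, h22, h23⟩ := hcol c1 h13
  have hc3 : ∀ v ∈ (A.erase u).erase (m u), (if v ∈ S then c2 v else c1 v) = c1 v := by
    intro v hv
    by_cases hvS : v ∈ S
    · rw [if_pos hvS]
      rw [mem_erase, mem_erase] at hv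
      exact h21 v (by rw [mem_erase, mem_erase]; exact ⟨hv.1, hv.2.1, hvS⟩)
    · rw [if_neg hvS]
  refine ⟨fun v => if v ∈ S then c2 v else c1 v, ?_, ?_⟩
  · intro v hv
    change (if m v ∈ S then c2 (m v) else c1 (m v)) = !(if v ∈ S then c2 v else c1 v)
    by_cases h1 : v = u
    · rw [h1, if_pos hu, if_pos hmu]
      exact h22
    · by_cases h2 : v = m u
      · rw [h2, (hm u huA).2.1, if_pos hu, if_pos hmu, h22, Bool.not_not]
      · have hv0 : v ∈ (A.erase u).erase (m u) := by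
          rw [mem_erase, mem_erase]
          exact ⟨h2, h1, hv⟩
        rw [hc3 v hv0, hc3 (m v) (hm0 v hv0).1]
        exact h12 v hv0
  · refine hUNI V s A S _ c hSA hA hS ?_ hcbal ?_
    · refine redf_congr s S c2 _ h23 fun v hv => ?_
      exact if_pos hv
    · intro v hv
      have hvS := (mem_sdiff.1 hv).2
      change (if v ∈ S then c2 v else c1 v) = c v
      rw [if_neg hvS]
      exact h11 v hv

end Pool.Agent.Helper78.AN
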