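import Pool.Agent.Helper86.AN.Stmts

set_option autoImplicit false

/-!
ZDE: existence of the component through `x`.
-/

namespace Pool.Agent.Helper78.AN

open Pool.Agent.Helper86.AN Finset

/-- the permutation `v ↦ m (w v)` of `B`, extended by the identity -/
def zdeR {V : Type} [DecidableEq V] (B : Finset V) (m w : V → V) (hm : InvOn B m)
    (hw : InvOn B w) : Equiv.Perm V where
  toFun v := if v ∈ B then m (w v) else v
  invFun v := if v ∈ B then w (m v) else v
  left_inv v := by
    by_cases hv : v ∈ B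
    · have h1 := hw v hv
      have h2 := hm (w v) h1.1
      simp only [if_pos hv, if_pos h2.1, h2.2.1, h1.2.1]
    · simp only [if_neg hv]
  right_inv v := by
    by_cases hv : v ∈ B
    · have h1 := hm v hv
      have h2 := hw (m v) h1.1
      simp only [if_pos hv, if_pos h2.1, h2.2.1, h1.2.1]
    · simp only [if_neg hv]

theorem zdeR_mem {V : Type} [DecidableEq V] (B : Finset V) (m w : V → V) (hm : InvOn B m)
    (hw : InvOn B w) (v : V) (hv : v ∈ B) :
    zdeR B m w hm hw v = m (w v) ∧ zdeR B m w hm hw v ∈ B ∧ (zdeR B m w hm hw)⁻¹ v ∈ B := by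
  have e1 : zdeR B m w hm hw v = m (w v) := if_pos hv
  have e2 : (zdeR B m w hm hw)⁻¹ v = w (m v) := if_pos hv
  refine ⟨e1, ?_, ?_⟩
  · rw [e1]
    exact (hm _ (hw v hv).1).1
  · rw [e2]
    exact (hw _ (hm v hv).1).1

theorem st_ZDE (hRF : ST_RF) : ST_ZDE := by
  intro V _ _ s A m w u x hK hx
  have hm : InvOn (Ap A u) m := (hRF V s A m w u hK).1
  have hw : InvOn (Ap A u) w := hK.winv
  set R := zdeR (Ap A u) m w hm hw with hR
  have hmem := zdeR_mem (Ap A u) m w hm hw
  have hall : ∀ k : ℤ, (R ^ k) x ∈ Ap A u := by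
    intro k
    induction k using Int.induction_on with
    | zero => simpa using hx
    | succ i ih =>
      rw [add_comm, zpow_add, zpow_one, Equiv.Perm.mul_apply]
      exact (hmem _ ih).2.1
    | pred i ih =>
      rw [sub_eq_add_neg, add_comm, zpow_add, zpow_neg_one, Equiv.Perm.mul_apply]
      exact (hmem _ ih).2.2
  refine ⟨(MulAction.period R x : ℤ), fun k => (R ^ k) x, ⟨?_, hall, ?_, ?_⟩, ?_⟩
  · have h1 : 0 < MulAction.period R x :=
      MulAction.period_pos_of_orderOf_pos (orderOf_pos R) x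
    exact_mod_cast h1
  · intro k l
    rw [← MulAction.zpow_smul_eq_iff_period_dvd, Equiv.Perm.smul_def, sub_eq_neg_add, zpow_add,
      Equiv.Perm.mul_apply, zpow_neg, Equiv.Perm.inv_eq_iff_eq]
  · intro k
    rw [add_comm k 1, zpow_add, zpow_one, Equiv.Perm.mul_apply]
    exact ((hmem _ (hall k)).1).symm
  · simp

end Pool.Agent.Helper78.AN
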